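import Pool.Agent.Lib.helper32.TowerS

set_option autoImplicit false

namespace Pool.Agent.Results.MP_d9033c_gt.TauCH

open Set Pool.Agent.Lib.helper32.Tau

theorem result (hCH : Cardinal.continuum.{0} = Cardinal.aleph 1) :
    ∃ X : Set ℝ, (∀ 𝓤 : Set (Set X), Om 𝓤 → ∃ 𝓥 ⊆ 𝓤, Ta 𝓥) ∧
      ∃ 𝓤 : Set (Set X), Om 𝓤 ∧ ∀ 𝓥 ⊆ 𝓤, ¬ Ga 𝓥 := by
  obtain ⟨X, C, h1, h2⟩ := ex hCH
  refine ⟨X, fun 𝓤 h3 => ?_, _, (it_ta (fun n => (h1.1 n).isOpen) h1.ne h1.2.2.1).2,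
    fun _ => h1.nga⟩
  obtain ⟨𝓥, 𝓦, -, h4, ⟨𝓐, h5, h6⟩, -⟩ := h2.split 𝓤 h3
  exact ⟨𝓐, h5.trans (h4 ▸ subset_union_left), h6⟩

end Pool.Agent.Results.MP_d9033c_gt.TauCH
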